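import Pool.Agent.P8H10.TX.Tow

/-!
# The p-adic strong four exponentials conjecture in spaces with automorphisms

Let `p` be a prime, `L` the Iwasawa logarithm on the algebraic closure `C` of `ℚ_p`, `F` a field between `ℚ_p` and `C`, and
let `K` be the field of the algebraic numbers in `F`. The conjecture *holds in* a `K`-subspace `V` of `C` if no `2 × 2` matrix
with entries in `V` is a counterexample.

1. Let `U` be a `K`-space and `x_0, x_1, …` numbers in `C` such that for each `k` there are an automorphism `τ_k` of `C` over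
   `F` and a number `c_k ∈ K`, `c_k ^ 2 ≠ 1`, such that `τ_k x_k = c_k x_k` and `τ_k` fixes the elements of `U` and all `x_i`,
   `i < k`. If the conjecture holds in `U`, then it holds in the space `U + K x_0 + K x_1 + …`.
2. Let the value group of `F` be generated by the norm of an algebraic number `ϖ` in `F` (for instance `F` a finite extension of
   `ℚ_p`, or the maximal unramified extension with `ϖ = p`), let `z ∈ F` be a root of unity, `z ^ n = 1`, `n` prime to `p`,
   `z ^ 2 ≠ 1`, and let `θ_0 = ϖ`, `θ_(k+1) ^ n = θ_k`, so `θ_k` is a root of `ϖ` of order `n ^ k`. The numbers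
   `x_k = ∑_(j < n) z ^ (-j) L(1 + p z ^ j θ_(k+1))` are linear forms in logarithms, they are linearly independent over `K`, and they
   satisfy the conditions of 1 for all `K`-subspaces `U` of `F`, which meet the space `V` of the `x_k` in zero. So if the
   conjecture holds in such a `U` then it holds in `U + V`, and it holds in `K b₁ + K b₂ + V` for all `b₁, b₂` in `F`,
   for instance `1` and `log 3`.
3. For `F = ℚ_p` one may take `ϖ = p`, and such `z` (with `n = p - 1`) exist for all `p ≥ 5`; such `θ_k` exist always. So for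
   each `p ≥ 5` there are explicit infinite-dimensional spaces over the algebraic numbers in `ℚ_p` in which the conjecture holds.

Proof of 1. For one vector: let `M = W + x m` be singular, the entries of `W` in `U` and those of `m` in `K`. In
`0 = det W + x B(W, m) + x ^ 2 det m` the three terms are eigenvectors of `τ` with the different eigenvalues `1, c, c ^ 2`. So all of
them are zero. If `m ≠ 0` then `m` has rank one and is orthogonal to `M` for the polar form of the determinant; this gives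
a zero coefficient of `M` in suitable bases over `K`, and a singular matrix with a zero coefficient has dependent rows or columns. In 2
the polynomial `X ^ N - ϖ` is irreducible over `F` by the norms, and `x_k ≠ 0` because `|L(1 + y) - y| < |y|` for
`0 < |y| < 1 / p`.

By helpers 10, 34, 43, 76 (and helpers 26, 46, 78 for the linear algebra of project SF).
-/

set_option autoImplicit false

namespace Pool.Agent.Results.MP_dd0d16_nt.EigenvectorTowers

open Module

/-- `L` is the Iwasawa logarithm on the algebraic closure of `ℚ_p`. -/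
structure IsIwasawaLog {p : ℕ} [Fact p.Prime] (L : PadicAlgCl p → PadicAlgCl p) : Prop where
  mul : ∀ x y : PadicAlgCl p, x ≠ 0 → y ≠ 0 → L (x * y) = L x + L y
  prime : L ((p : ℕ) : PadicAlgCl p) = 0
  ser : ∀ z : PadicAlgCl p, ‖z‖ < 1 →
    HasSum (fun n : ℕ => (-1 : PadicAlgCl p) ^ n * z ^ (n + 1) / ((n : PadicAlgCl p) + 1))
      (L (1 + z))

/-- The space of all linear combinations with algebraic coefficients of `1` and of the values of `L`
at nonzero algebraic numbers. -/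
noncomputable def LogForms {p : ℕ} [Fact p.Prime] (L : PadicAlgCl p → PadicAlgCl p) :
    Submodule (algebraicClosure ℚ (PadicAlgCl p)) (PadicAlgCl p) :=
  Submodule.span (algebraicClosure ℚ (PadicAlgCl p))
    ({1} ∪ {z | ∃ α : PadicAlgCl p, α ≠ 0 ∧ IsAlgebraic ℚ α ∧ z = L α})

/-- `M` is a counterexample to the `p`-adic strong four exponentials conjecture: its entries are in
`LogForms`, the rows and the columns are linearly independent over the algebraic numbers, and the
determinant is zero. -/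
def IsCounterexample {p : ℕ} [Fact p.Prime] (L : PadicAlgCl p → PadicAlgCl p)
    (M : Matrix (Fin 2) (Fin 2) (PadicAlgCl p)) : Prop :=
  (∀ i j, M i j ∈ LogForms L) ∧
    LinearIndependent (algebraicClosure ℚ (PadicAlgCl p)) M.row ∧
    LinearIndependent (algebraicClosure ℚ (PadicAlgCl p)) M.col ∧ M.det = 0

variable {p : ℕ} [Fact p.Prime]

/-- The field `K` of the algebraic numbers in `F`. -/
noncomputable def AlgIn (F : IntermediateField ℚ_[p] (PadicAlgCl p)) : Subfield (PadicAlgCl p) :=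
  (algebraicClosure ℚ (PadicAlgCl p)).toSubfield ⊓ F.toSubfield

/-- No `2 × 2` matrix with entries in `V` is a counterexample. -/
def HoldsIn {F : IntermediateField ℚ_[p] (PadicAlgCl p)} (L : PadicAlgCl p → PadicAlgCl p)
    (V : Submodule (AlgIn F) (PadicAlgCl p)) : Prop :=
  ∀ M : Matrix (Fin 2) (Fin 2) (PadicAlgCl p), (∀ i j, M i j ∈ V) → ¬ IsCounterexample L M

/-- The `K`-space generated by the numbers `y i`. -/
noncomputable def spanK (F : IntermediateField ℚ_[p] (PadicAlgCl p)) {ι : Type}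
    (y : ι → PadicAlgCl p) : Submodule (AlgIn F) (PadicAlgCl p) :=
  Submodule.span (AlgIn F) (Set.range y)

/-- For each `k` there are an automorphism `τ` of the algebraic closure of `ℚ_p` over `ℚ_p`, which fixes the elements of `F`, and
a number `c ∈ K`, `c ^ 2 ≠ 1`, such that `τ x_k = c x_k` and `τ` fixes `x_i` for `i < k` and the elements of `U`. -/
def EigenChain {F : IntermediateField ℚ_[p] (PadicAlgCl p)} (x : ℕ → PadicAlgCl p)
    (U : Submodule (AlgIn F) (PadicAlgCl p)) : Prop :=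
  ∀ k, ∃ (τ : PadicAlgCl p ≃ₐ[ℚ_[p]] PadicAlgCl p) (c : AlgIn F), (∀ a ∈ F, τ a = a) ∧
    τ (x k) = (c : PadicAlgCl p) * x k ∧ c ^ 2 ≠ 1 ∧ (∀ i < k, τ (x i) = x i) ∧ ∀ w ∈ U, τ w = w

/-- `ϖ` is an algebraic number in `F` and its norm generates the value group of `F`. -/
structure Uniformizer (F : IntermediateField ℚ_[p] (PadicAlgCl p)) (ϖ : PadicAlgCl p) : Prop where
  mem : ϖ ∈ F
  alg : IsAlgebraic ℚ ϖ
  ne : ϖ ≠ 0
  lt : ‖ϖ‖ < 1
  gen : ∀ c ∈ F, c ≠ 0 → ∃ m : ℤ, ‖c‖ = ‖ϖ‖ ^ m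

/-- `θ 0 = ϖ` and `θ (k + 1) ^ n = θ k`: a tower of roots of `ϖ` of order `n ^ k`. -/
def RootTower (ϖ : PadicAlgCl p) (n : ℕ) (θ : ℕ → PadicAlgCl p) : Prop :=
  θ 0 = ϖ ∧ ∀ k, θ (k + 1) ^ n = θ k

/-- The sum of the `z ^ (-j) L(1 + p z ^ j t)`, `j = 0, …, n - 1`. -/
noncomputable def eigenLog (L : PadicAlgCl p → PadicAlgCl p) (n : ℕ) (z : PadicAlgCl p)
    (t : PadicAlgCl p) : PadicAlgCl p :=
  ∑ j ∈ Finset.range n, z⁻¹ ^ j * L (1 + (p : PadicAlgCl p) * (z ^ j * t))

/-- **Main result.** -/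
theorem result (p : ℕ) [Fact p.Prime] (L : PadicAlgCl p → PadicAlgCl p) (hL : IsIwasawaLog L) :
    -- (1)
    (∀ (F : IntermediateField ℚ_[p] (PadicAlgCl p)) (x : ℕ → PadicAlgCl p)
      (U : Submodule (AlgIn F) (PadicAlgCl p)), EigenChain x U →
      HoldsIn L U → HoldsIn L (U ⊔ spanK F x)) ∧
    -- (2)
    (∀ (F : IntermediateField ℚ_[p] (PadicAlgCl p)) (ϖ : PadicAlgCl p), Uniformizer F ϖ →
      ∀ n : ℕ, 0 < n → ¬ p ∣ n → ∀ z ∈ F, z ^ n = 1 → z ^ 2 ≠ 1 →
      ∀ θ : ℕ → PadicAlgCl p, RootTower ϖ n θ →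
      (∀ k, eigenLog L n z (θ (k + 1)) ∈ LogForms L) ∧
      LinearIndependent (AlgIn F) (fun k => eigenLog L n z (θ (k + 1))) ∧
      (∀ U : Submodule (AlgIn F) (PadicAlgCl p), (∀ w ∈ U, w ∈ F) →
        EigenChain (fun k => eigenLog L n z (θ (k + 1))) U ∧
        Disjoint U (spanK F fun k => eigenLog L n z (θ (k + 1))) ∧
        (HoldsIn L U → HoldsIn L (U ⊔ spanK F fun k => eigenLog L n z (θ (k + 1))))) ∧
      ∀ b : Fin 2 → F, HoldsIn L ((spanK F fun i => (b i : PadicAlgCl p)) ⊔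
        spanK F fun k => eigenLog L n z (θ (k + 1)))) ∧
    -- (3)
    Uniformizer ⊥ (p : PadicAlgCl p) ∧
    (5 ≤ p → ∃ z ∈ (⊥ : IntermediateField ℚ_[p] (PadicAlgCl p)), z ^ (p - 1) = 1 ∧ z ^ 2 ≠ 1) ∧
    ∀ (ϖ : PadicAlgCl p) (n : ℕ), 0 < n → ∃ θ : ℕ → PadicAlgCl p, RootTower ϖ n θ := by
  have hL' : Pool.Agent.W245.PB.IsIwasawaLog p L := ⟨hL.1, hL.2, hL.3⟩
  have hpair : ∀ (F : IntermediateField ℚ_[p] (PadicAlgCl p)) (y : Fin 2 → PadicAlgCl p),
      spanK F y = Submodule.span (AlgIn F) {y 0, y 1} := by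
    intro F y
    unfold spanK
    congr 1
    ext w
    simp only [Set.mem_range, Fin.exists_fin_two, Set.mem_insert_iff, Set.mem_singleton_iff, eq_comm]
  have htwo : ∀ (F : IntermediateField ℚ_[p] (PadicAlgCl p)) (y : Fin 2 → PadicAlgCl p),
      HoldsIn L (spanK F y) := by
    intro F y M hM hc
    rw [hpair] at hM
    exact Pool.Agent.P8H10.TX.not_bad_two (y 0) (y 1) hM hc.2
  have hb : ∀ (F : IntermediateField ℚ_[p] (PadicAlgCl p)) (b : Fin 2 → F),
      ∀ w ∈ (spanK F fun i => (b i : PadicAlgCl p)), w ∈ F := by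
    intro F b w hw
    rw [hpair] at hw
    obtain ⟨a, c, rfl⟩ := Submodule.mem_span_pair.1 hw
    exact add_mem (mul_mem (Pool.Agent.P8H10.TX.mem_KF.1 a.2).2 (b 0).2)
      (mul_mem (Pool.Agent.P8H10.TX.mem_KF.1 c.2).2 (b 1).2)
  have h1 : ∀ (F : IntermediateField ℚ_[p] (PadicAlgCl p)) (x : ℕ → PadicAlgCl p)
      (U : Submodule (AlgIn F) (PadicAlgCl p)), EigenChain x U →
      HoldsIn L U → HoldsIn L (U ⊔ spanK F x) := by
    intro F x U hx hU M hM hc
    choose τ c e0 e1 e2 e3 e4 using hx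
    exact hU M (Pool.Agent.P8H10.TX.chain_main x τ c e0 e1 e2 e3 U e4 M hM hc.2) hc
  refine ⟨h1, ?_, ⟨?_, ?_, ?_, ?_, ?_⟩, ?_, ?_⟩
  · intro F ϖ hϖ n hn hnp z hzF hz hz2 θ hθ
    have hϖ' : Pool.Agent.P8H10.TX.Unif F ϖ := ⟨hϖ.1, hϖ.2, hϖ.3, hϖ.4, hϖ.5⟩
    have hT : Pool.Agent.P8H10.TX.Tower n ϖ θ := ⟨hθ.1, hθ.2⟩
    have hch : ∀ U : Submodule (AlgIn F) (PadicAlgCl p), (∀ w ∈ U, w ∈ F) →
        EigenChain (fun k => eigenLog L n z (θ (k + 1))) U := fun U hU k =>
      Pool.Agent.P8H10.TX.tower_chain hL' hz hzF hz2 hn hϖ' hT U hU k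
    refine ⟨fun k => Pool.Agent.P8H10.TX.fin_mem hz hn hϖ' hT (k + 1) (LogForms L) fun α h0 ha =>
      Submodule.subset_span (Or.inr ⟨α, h0, ha, rfl⟩),
      Pool.Agent.P8H10.TX.fin_indep hL' hz hzF hz2 hn hnp hϖ' hT, fun U hU => ⟨hch U hU,
        Pool.Agent.P8H10.TX.fin_disj hL' hz hzF hz2 hn hnp hϖ' hT U hU, h1 F _ U (hch U hU)⟩,
      fun b => h1 F _ _ (hch _ (hb F b)) (htwo F _)⟩
  · exact IntermediateField.mem_bot.2 ⟨(p : ℚ_[p]), map_natCast _ p⟩
  · have h2 := isAlgebraic_algebraMap (R := ℚ) (A := PadicAlgCl p) (p : ℚ)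
    rwa [map_natCast] at h2
  · exact Nat.cast_ne_zero.2 (Fact.out : p.Prime).ne_zero
  · rw [Pool.Agent.P8H10.TW.norm_p]
    exact inv_lt_one_of_one_lt₀ (by exact_mod_cast (Fact.out : p.Prime).one_lt)
  · intro c hc hc0
    obtain ⟨b, rfl⟩ := IntermediateField.mem_bot.1 hc
    have hb0 : b ≠ 0 := by
      rintro rfl
      exact hc0 (map_zero _)
    refine ⟨b.valuation, ?_⟩
    rw [Pool.Agent.P8H10.TW.norm_p, PadicAlgCl.norm_extends, Padic.norm_eq_zpow_neg_valuation hb0,
      inv_zpow, zpow_neg]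
  · intro h5
    obtain ⟨z, hz, hz2⟩ := Pool.Agent.P8H10.TW.fin_exists h5
    refine ⟨(z : PadicAlgCl p), IntermediateField.mem_bot.2 ⟨z, rfl⟩, ?_, fun h => hz2 ?_⟩
    · rw [← map_pow, hz, map_one]
    · apply (algebraMap ℚ_[p] (PadicAlgCl p)).injective
      rw [map_pow, map_one]
      exact h
  · intro ϖ n hn
    obtain ⟨θ, hθ⟩ := Pool.Agent.P8H10.TX.exists_tower (p := p) ϖ n hn
    exact ⟨θ, hθ.zero, hθ.succ⟩

end Pool.Agent.Results.MP_dd0d16_nt.EigenvectorTowers
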