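import Pool.Agent.P8H10.Gal4

/-!
# The `p`-adic strong four exponentials conjecture: Galois descent of counterexamples

Let `L` be the Iwasawa logarithm on the algebraic closure `C` of `ℚ_p`, let `ℚ̄ ⊆ C` be the field of the
algebraic numbers and `LogForms` the space of all linear combinations, with algebraic coefficients, of `1`
and of `p`-adic logarithms of algebraic numbers. Let `M` be a counterexample to the conjecture and let
`s` be the quotient of its two rows.

1. There is an invertible matrix `B` of algebraic numbers such that the counterexample `M B` has all its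
   entries in the finite extension `ℚ_p(s)` of `ℚ_p`. So the conjecture for `p` is equivalent to the
   conjecture for the matrices with entries in `F ∩ LogForms`, `F` a finite extension of `ℚ_p`.
2. The conjugates over `ℚ_p` of any entry of `M` span a space over `ℚ̄` of dimension at most
   `2 [ℚ_p(s) : ℚ_p]`. As `s ∈ ℚ_p(a, b)` for each of the columns `(a, b)` of `M`, the conjecture holds for
   all matrices which have an entry with more than `2 [ℚ_p(a, b) : ℚ_p]` linearly independent conjugates
   over `ℚ_p`.

The same holds for the columns of `M`, as the notion of a counterexample is symmetric.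

Proof. The group `Gal (C / ℚ_p)` acts on `LogForms`, semilinearly over `ℚ̄`. The numbers `y` in `LogForms`
such that `s y` is in `LogForms` form a space `Y` over `ℚ̄`, of dimension two by the `p`-adic strong six
exponentials theorem (starting files `Pool.Agent.W254.PA`), which is stable under the group
`Gal (C / ℚ_p(s))`. By Krasner's lemma every element of `C` lies in a field `ℚ_p(θ)` with `θ ∈ ℚ̄`; hence
`Y` is spanned by its elements in `ℚ_p(s)` (`Pool.Agent.P8H10.descent`).
-/

set_option autoImplicit false

namespace Pool.Agent.Results.MP_dd0d16_nt.GaloisDescent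

open Module IntermediateField

/-- `L` is the Iwasawa logarithm on the algebraic closure of `ℚ_p`. -/
structure IsIwasawaLog {p : ℕ} [Fact p.Prime] (L : PadicAlgCl p → PadicAlgCl p) : Prop where
  mul : ∀ x y : PadicAlgCl p, x ≠ 0 → y ≠ 0 → L (x * y) = L x + L y
  prime : L ((p : ℕ) : PadicAlgCl p) = 0
  ser : ∀ z : PadicAlgCl p, ‖z‖ < 1 →
    HasSum (fun n : ℕ => (-1 : PadicAlgCl p) ^ n * z ^ (n + 1) / ((n : PadicAlgCl p) + 1))
      (L (1 + z))

/-- The space of all linear combinations with algebraic coefficients of `1` and of the values of `L`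
at nonzero algebraic numbers. -/
noncomputable def LogForms {p : ℕ} [Fact p.Prime] (L : PadicAlgCl p → PadicAlgCl p) :
    Submodule (algebraicClosure ℚ (PadicAlgCl p)) (PadicAlgCl p) :=
  Submodule.span (algebraicClosure ℚ (PadicAlgCl p))
    ({1} ∪ {z | ∃ α : PadicAlgCl p, α ≠ 0 ∧ IsAlgebraic ℚ α ∧ z = L α})

/-- `M` is a counterexample to the `p`-adic strong four exponentials conjecture: its entries are in
`LogForms`, the rows and the columns are linearly independent over the algebraic numbers, and the
determinant is zero. -/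
def IsCounterexample {p : ℕ} [Fact p.Prime] (L : PadicAlgCl p → PadicAlgCl p)
    (M : Matrix (Fin 2) (Fin 2) (PadicAlgCl p)) : Prop :=
  (∀ i j, M i j ∈ LogForms L) ∧
    LinearIndependent (algebraicClosure ℚ (PadicAlgCl p)) M.row ∧
    LinearIndependent (algebraicClosure ℚ (PadicAlgCl p)) M.col ∧ M.det = 0

/-- **Main result.** -/
theorem result (p : ℕ) [Fact p.Prime] (L : PadicAlgCl p → PadicAlgCl p) (hL : IsIwasawaLog L)
    (M : Matrix (Fin 2) (Fin 2) (PadicAlgCl p)) (hM : IsCounterexample L M)
    (s : PadicAlgCl p) (hs : ∀ j, M 1 j = s * M 0 j) :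
    (∃ B : Matrix (Fin 2) (Fin 2) (algebraicClosure ℚ (PadicAlgCl p)), B.det ≠ 0 ∧
      IsCounterexample L (M * B.map (algebraMap _ (PadicAlgCl p))) ∧
      ∀ i j, (M * B.map (algebraMap _ (PadicAlgCl p))) i j ∈ ℚ_[p]⟮s⟯) ∧
    ∀ (i j : Fin 2) (l : ℕ) (σ : Fin l → (PadicAlgCl p ≃ₐ[ℚ_[p]] PadicAlgCl p)),
      LinearIndependent (algebraicClosure ℚ (PadicAlgCl p)) (fun m => σ m (M i j)) →
      l ≤ 2 * finrank ℚ_[p] ℚ_[p]⟮s⟯ := by
  have hL' : Pool.Agent.W245.PB.IsIwasawaLog p L := ⟨hL.1, hL.2, hL.3⟩
  refine ⟨Pool.Agent.P8H10.ctr_descent hL' (M := M) hM hs, fun i j l σ hli => ?_⟩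
  exact Pool.Agent.P8H10.ctr_conj_ratio hL' (M := M) hM hs i j σ hli

end Pool.Agent.Results.MP_dd0d16_nt.GaloisDescent
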