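import Pool.Agent.P8H10.Gal5

/-!
# The `p`-adic strong four exponentials conjecture: products of two linear forms in logarithms

Let `L` be the Iwasawa logarithm on the algebraic closure of `ℚ_p`, let `ℚ̄` be the field of the algebraic
numbers and `LogForms` the space of all linear combinations, with algebraic coefficients, of `1` and of
`p`-adic logarithms of algebraic numbers. The conjecture for the matrices `(1, y; x, z)` says that the
product `x y` of two transcendental elements of `LogForms` is never in `LogForms`.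

1. Let `x`, `y` be in `LogForms`, `x` transcendental. If `1` and the conjugates of `y` over `ℚ_p` span a
   space over `ℚ̄` of dimension greater than `1 + [ℚ_p(x) : ℚ_p]`, then `x y` is not in `LogForms`.
2. Let `α` and `β` be nonzero algebraic numbers, `L β ≠ 0`. If more than `[ℚ_p(β) : ℚ_p]` conjugates of
   `α` over `ℚ_p` are, together with `p`, multiplicatively independent, then `L α · L β` is not in
   `LogForms`; in particular it is neither algebraic nor a `p`-adic logarithm of an algebraic number.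
3. For example, `L (2 + i) · L b` is not in `LogForms` if `p ≡ 3 mod 4` and `b ∈ ℚ_p` is algebraic over `ℚ`
   and `L b ≠ 0`, for example if `b` is a prime number different from `p`.

Proof. The group `Gal (C / ℚ_p)` acts on `LogForms`, semilinearly over `ℚ̄`. If `x y` is in `LogForms`, then
the space of all `y'` in `LogForms` such that `x y'` is in `LogForms` contains `1` and the conjugates of
`y` over `ℚ_p(x)`; its dimension is at most two by the `p`-adic strong six exponentials theorem (starting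
files `Pool.Agent.W254.PA`). The second part uses the theorem of Brumer.
-/

set_option autoImplicit false

namespace Pool.Agent.Results.MP_dd0d16_nt.ProductsOfLogarithms

open Module IntermediateField

/-- `L` is the Iwasawa logarithm on the algebraic closure of `ℚ_p`. -/
structure IsIwasawaLog {p : ℕ} [Fact p.Prime] (L : PadicAlgCl p → PadicAlgCl p) : Prop where
  mul : ∀ x y : PadicAlgCl p, x ≠ 0 → y ≠ 0 → L (x * y) = L x + L y
  prime : L ((p : ℕ) : PadicAlgCl p) = 0
  ser : ∀ z : PadicAlgCl p, ‖z‖ < 1 →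
    HasSum (fun n : ℕ => (-1 : PadicAlgCl p) ^ n * z ^ (n + 1) / ((n : PadicAlgCl p) + 1))
      (L (1 + z))

/-- The space of all linear combinations with algebraic coefficients of `1` and of the values of `L`
at nonzero algebraic numbers. -/
noncomputable def LogForms {p : ℕ} [Fact p.Prime] (L : PadicAlgCl p → PadicAlgCl p) :
    Submodule (algebraicClosure ℚ (PadicAlgCl p)) (PadicAlgCl p) :=
  Submodule.span (algebraicClosure ℚ (PadicAlgCl p))
    ({1} ∪ {z | ∃ α : PadicAlgCl p, α ≠ 0 ∧ IsAlgebraic ℚ α ∧ z = L α})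

/-- **Main result.** -/
theorem result (p : ℕ) [Fact p.Prime] (L : PadicAlgCl p → PadicAlgCl p) (hL : IsIwasawaLog L) :
    (∀ x ∈ LogForms L, ∀ y ∈ LogForms L, Transcendental ℚ x →
      ∀ (l : ℕ) (σ : Fin l → (PadicAlgCl p ≃ₐ[ℚ_[p]] PadicAlgCl p)),
      LinearIndependent (algebraicClosure ℚ (PadicAlgCl p))
        (Fin.cons 1 fun m => σ m y : Fin (l + 1) → PadicAlgCl p) →
      finrank ℚ_[p] ℚ_[p]⟮x⟯ < l → x * y ∉ LogForms L) ∧
    (∀ α β : PadicAlgCl p, IsAlgebraic ℚ α → α ≠ 0 → IsAlgebraic ℚ β → β ≠ 0 → L β ≠ 0 →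
      ∀ (l : ℕ) (σ : Fin l → (PadicAlgCl p ≃ₐ[ℚ_[p]] PadicAlgCl p)),
      (∀ (n : Fin l → ℤ) (a : ℤ), ∏ m, (σ m α) ^ n m = (p : PadicAlgCl p) ^ a → n = 0) →
      finrank ℚ_[p] ℚ_[p]⟮β⟯ < l → L α * L β ∉ LogForms L) ∧
    (p % 4 = 3 → ∀ I : PadicAlgCl p, I * I = -1 → ∀ b : ℚ_[p],
      IsAlgebraic ℚ (b : PadicAlgCl p) → b ≠ 0 → L (b : PadicAlgCl p) ≠ 0 →
      L (2 + I) * L (b : PadicAlgCl p) ∉ LogForms L) := by
  have hL' : Pool.Agent.W245.PB.IsIwasawaLog p L := ⟨hL.1, hL.2, hL.3⟩
  have hfin : ∀ x : PadicAlgCl p, finrank ℚ_[p] ℚ_[p]⟮x⟯ = (minpoly ℚ_[p] x).natDegree :=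
    fun x => IntermediateField.adjoin.finrank (Algebra.IsIntegral.isIntegral x)
  refine ⟨fun x hx y hy hxt l σ hli hl => ?_, fun α β hα hα0 hβ hβ0 hLβ l σ hm hl => ?_,
    fun hp4 I hI b hb hb0 hLb => ?_⟩
  · intro hmem
    have h1 := Pool.Agent.P8H10.card_conj_le_one hL' (s := x) (y := y) hxt
      (Pool.Agent.P8H10.mem_YS.2 ⟨Pool.Agent.W254.PA.one_memP, by rw [mul_one]; exact hx⟩)
      (Pool.Agent.P8H10.mem_YS.2 ⟨hy, hmem⟩) σ hli
    rw [hfin] at hl
    omega
  · rw [hfin] at hl
    exact Pool.Agent.P8H10.product_not_mem hL' hα0 hβ0 hα hβ hLβ hl σ hm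
  · refine Pool.Agent.P8H10.gauss_product hL' hI hp4 hb ⟨b, rfl⟩ ?_ hLb
    exact (map_ne_zero (algebraMap ℚ_[p] (PadicAlgCl p))).2 hb0

end Pool.Agent.Results.MP_dd0d16_nt.ProductsOfLogarithms
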