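import Pool.Agent.P8H10.SF.All
import Pool.Agent.P8H33.QC.AppN

/-!
# The 2-adic strong four exponentials conjecture in spaces with sign changes

Let `L` be the Iwasawa logarithm on the algebraic closure `C` of `ℚ_2`, let `ℚ̄ ⊆ C` be the field of the
algebraic numbers and `K = ℚ_2 ∩ ℚ̄`. The conjecture *holds in* a `K`-subspace `V` of `C` if no `2 × 2` matrix with entries
in `V` is a counterexample.

1. (Signed cycles.) Let `ℓ` be an odd prime, `α_i` (`i` modulo `ℓ`) nonzero numbers, `τ`, `σ` automorphisms of `C` over `ℚ_2` with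
   `τ α_i = α_(i+1)`, `σ α_0 = 1 / α_0`, `σ α_1 = 1 / α_1`, `σ α_i = α_i` for the other `i`, and let `V` be the `K`-space generated by
   the numbers `L(α_i)`. Suppose that the squares of these logarithms satisfy no relation `∑ b_i L(α_i) ^ 2 = 0` with
   `b_i ∈ K`, `∑ b_i = 0`, not all `b_i` zero; or that the cyclotomic polynomial of order `ℓ` is irreducible over `ℚ_2`
   (that is, `2` is a primitive root modulo `ℓ`, for instance `ℓ = 3, 5, 11, 13, 19`), when this is automatic. If the conjecture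
   holds in a space `U` whose elements are fixed by `τ` and `σ`, then it holds in `U + V`. (If `σ` inverts only `α_0`,
   replace it by `σ τ σ τ⁻¹`, which inverts `α_0` and `α_1`.)
2. (The alternating group.) The same for four nonzero numbers `α_1, …, α_4` such that every even permutation of them is
   induced by an automorphism over `ℚ_2` which fixes the elements of `U`, if the sum of the `L(α_i)` is in `U`.
3. The conjecture holds in all spaces `K y₁ + K y₂`.
4. For every odd prime `ℓ` there are algebraic `α_i` as in 1 whose logarithms are linearly independent over `ℚ̄`. So if the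
   conjecture holds in a `K`-subspace `U` of `ℚ_2` then it holds in the direct sum of `U` and the space `V` of dimension `ℓ`.
   By 3 it holds in `K b₁ + K b₂ + V` for all `b₁, b₂` in `ℚ_2` (for instance `1` and `log 3`, or `log 3` and `log 5`), a
   space of dimension `ℓ + 2` if `b₁`, `b₂` are linearly independent over `K`.
5. The same for the zeros of `X ^ 4 + 2 X + 2`, with `V` of dimension three.

Proof. Let `M = W + ∑ x_i m_i` be singular, `x_i = L(α_i)`, the entries of `W` in `U` and the matrices `m_i` with entries in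
`K`. Conjugating `det M = 0` by the automorphisms which change the signs of two of the `x_i` one finds that the `m_i` are
orthogonal to each other and to `W` for the polar form of the determinant, and `det W + ∑ det(m_i) x_i ^ 2 = 0`. By the
hypothesis on the squares `det(m_i)` does not depend on `i`. As a sum of three squares is not zero in `ℚ_2`, three
orthogonal matrices cannot have the same nonzero determinant (a combination of them with the first column zero). So all
`m_i` are singular, and a nonzero one, of rank one, gives a zero coefficient of `M` in suitable bases over `K`: then `M` has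
dependent rows or columns. In 4 the numbers are `α_i = (1 + 4 r_i) / (1 - 4 r_i)`, `r_i ^ 2 = 1 + 2 θ_i`, where the `θ_i` form a
normal basis modulo two of the unramified extension of degree `ℓ`. The case of rational coefficients is
`MP_1f047c_nt.SignedCycles`, `MP_1f047c_nt.QuarticConjugates` (helper33 and others). By helpers 10, 26, 33, 41, 45, 46, 69,
78, 96 (and helpers 4, 23, 38, 62, 76, whose packages of the rational case are used).
-/

set_option autoImplicit false

namespace Pool.Agent.Results.MP_dd0d16_nt.SignedCycleSpaces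

open Module

/-- `L` is the Iwasawa logarithm on the algebraic closure of `ℚ_p`. -/
structure IsIwasawaLog {p : ℕ} [Fact p.Prime] (L : PadicAlgCl p → PadicAlgCl p) : Prop where
  mul : ∀ x y : PadicAlgCl p, x ≠ 0 → y ≠ 0 → L (x * y) = L x + L y
  prime : L ((p : ℕ) : PadicAlgCl p) = 0
  ser : ∀ z : PadicAlgCl p, ‖z‖ < 1 →
    HasSum (fun n : ℕ => (-1 : PadicAlgCl p) ^ n * z ^ (n + 1) / ((n : PadicAlgCl p) + 1))
      (L (1 + z))

/-- The space of all linear combinations with algebraic coefficients of `1` and of the values of `L`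
at nonzero algebraic numbers. -/
noncomputable def LogForms {p : ℕ} [Fact p.Prime] (L : PadicAlgCl p → PadicAlgCl p) :
    Submodule (algebraicClosure ℚ (PadicAlgCl p)) (PadicAlgCl p) :=
  Submodule.span (algebraicClosure ℚ (PadicAlgCl p))
    ({1} ∪ {z | ∃ α : PadicAlgCl p, α ≠ 0 ∧ IsAlgebraic ℚ α ∧ z = L α})

/-- `M` is a counterexample to the `p`-adic strong four exponentials conjecture: its entries are in
`LogForms`, the rows and the columns are linearly independent over the algebraic numbers, and the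
determinant is zero. -/
def IsCounterexample {p : ℕ} [Fact p.Prime] (L : PadicAlgCl p → PadicAlgCl p)
    (M : Matrix (Fin 2) (Fin 2) (PadicAlgCl p)) : Prop :=
  (∀ i j, M i j ∈ LogForms L) ∧
    LinearIndependent (algebraicClosure ℚ (PadicAlgCl p)) M.row ∧
    LinearIndependent (algebraicClosure ℚ (PadicAlgCl p)) M.col ∧ M.det = 0

/-- The field `K` of the algebraic numbers in `ℚ_2`. -/
noncomputable def AlgQ2 : Subfield (PadicAlgCl 2) :=
  (algebraicClosure ℚ (PadicAlgCl 2)).toSubfield ⊓ (algebraMap ℚ_[2] (PadicAlgCl 2)).fieldRange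

/-- No `2 × 2` matrix with entries in `V` is a counterexample. -/
def HoldsIn (L : PadicAlgCl 2 → PadicAlgCl 2) (V : Submodule AlgQ2 (PadicAlgCl 2)) : Prop :=
  ∀ M : Matrix (Fin 2) (Fin 2) (PadicAlgCl 2), (∀ i j, M i j ∈ V) → ¬ IsCounterexample L M

/-- The `K`-space generated by the numbers `y i`. -/
noncomputable def spanK {ι : Type} (y : ι → PadicAlgCl 2) : Submodule AlgQ2 (PadicAlgCl 2) :=
  Submodule.span AlgQ2 (Set.range y)

/-- There are automorphisms `τ` and `σ` of the algebraic closure of `ℚ_2` over `ℚ_2`, fixing the elements of `U`,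
with `τ α_i = α_(i+1)`, `σ α_0 = 1 / α_0`, `σ α_1 = 1 / α_1`, and `σ α_i = α_i` for the other `i`. -/
def SignedCycle {ℓ : ℕ} (α : ZMod ℓ → PadicAlgCl 2) (U : Submodule AlgQ2 (PadicAlgCl 2)) : Prop :=
  ∃ τ σ : PadicAlgCl 2 ≃ₐ[ℚ_[2]] PadicAlgCl 2, (∀ i, τ (α i) = α (i + 1)) ∧ σ (α 0) = (α 0)⁻¹ ∧
    σ (α 1) = (α 1)⁻¹ ∧ (∀ i, i ≠ 0 → i ≠ 1 → σ (α i) = α i) ∧ ∀ w ∈ U, τ w = w ∧ σ w = w

/-- The squares of the logarithms of the `α i` satisfy no relation `∑ b_i L(α_i) ^ 2 = 0` with coefficients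
`b_i` in `K` of sum zero, except the trivial one. -/
def NoSquareRelation {ℓ : ℕ} [NeZero ℓ] (L : PadicAlgCl 2 → PadicAlgCl 2) (α : ZMod ℓ → PadicAlgCl 2) : Prop :=
  ∀ b : ZMod ℓ → AlgQ2, ∑ i, b i = 0 → ∑ i, (b i : PadicAlgCl 2) * L (α i) ^ 2 = 0 → ∀ i, b i = 0

/-- Every even permutation of the `α i` is induced by an automorphism over `ℚ_2` which fixes the elements of `U`. -/
def EvenPermutations (α : Fin 4 → PadicAlgCl 2) (U : Submodule AlgQ2 (PadicAlgCl 2)) : Prop :=
  ∀ π ∈ alternatingGroup (Fin 4), ∃ σ : PadicAlgCl 2 ≃ₐ[ℚ_[2]] PadicAlgCl 2,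
    (∀ i, σ (α i) = α (π i)) ∧ ∀ w ∈ U, σ w = w

/-- The elements of `U` are in `ℚ_2`. -/
def InQ2 (U : Submodule AlgQ2 (PadicAlgCl 2)) : Prop :=
  ∀ w ∈ U, ∃ b : ℚ_[2], (b : PadicAlgCl 2) = w

/-- **Main result.** -/
theorem result (L : PadicAlgCl 2 → PadicAlgCl 2) (hL : IsIwasawaLog L) :
    -- (1)
    (∀ (ℓ : ℕ) [Fact ℓ.Prime], ℓ ≠ 2 → ∀ α : ZMod ℓ → PadicAlgCl 2, (∀ i, α i ≠ 0) →
      (NoSquareRelation L α ∨ Irreducible (Polynomial.cyclotomic ℓ ℚ_[2])) →
      ∀ U : Submodule AlgQ2 (PadicAlgCl 2), SignedCycle α U →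
      HoldsIn L U → HoldsIn L (U ⊔ spanK fun i => L (α i))) ∧
    -- (2)
    (∀ α : Fin 4 → PadicAlgCl 2, (∀ i, α i ≠ 0) → ∀ U : Submodule AlgQ2 (PadicAlgCl 2),
      EvenPermutations α U → ∑ i, L (α i) ∈ U →
      HoldsIn L U → HoldsIn L (U ⊔ spanK fun i => L (α i))) ∧
    -- (3)
    (∀ y : Fin 2 → PadicAlgCl 2, HoldsIn L (spanK y)) ∧
    -- (4)
    (∀ (ℓ : ℕ) [Fact ℓ.Prime], ℓ ≠ 2 → ∃ α : ZMod ℓ → PadicAlgCl 2,
      (∀ i, α i ≠ 0 ∧ IsAlgebraic ℚ (α i)) ∧
      LinearIndependent (algebraicClosure ℚ (PadicAlgCl 2)) (fun i => L (α i)) ∧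
      (∀ U : Submodule AlgQ2 (PadicAlgCl 2), InQ2 U → Disjoint U (spanK fun i => L (α i)) ∧
        (HoldsIn L U → HoldsIn L (U ⊔ spanK fun i => L (α i)))) ∧
      ∀ b : Fin 2 → ℚ_[2],
        HoldsIn L ((spanK fun i => (b i : PadicAlgCl 2)) ⊔ spanK fun i => L (α i))) ∧
    -- (5)
    ∃ α : Fin 4 → PadicAlgCl 2, Function.Injective α ∧ (∀ i, α i ^ 4 + 2 * α i + 2 = 0) ∧
      LinearIndependent (algebraicClosure ℚ (PadicAlgCl 2)) ![L (α 0), L (α 1), L (α 2)] ∧
      (∀ U : Submodule AlgQ2 (PadicAlgCl 2), InQ2 U → Disjoint U (spanK fun i => L (α i)) ∧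
        (HoldsIn L U → HoldsIn L (U ⊔ spanK fun i => L (α i)))) ∧
      ∀ b : Fin 2 → ℚ_[2],
        HoldsIn L ((spanK fun i => (b i : PadicAlgCl 2)) ⊔ spanK fun i => L (α i)) := by
  have hL' : Pool.Agent.W245.PB.IsIwasawaLog 2 L := ⟨hL.1, hL.2, hL.3⟩
  have hpair : ∀ y : Fin 2 → PadicAlgCl 2, spanK y = Submodule.span AlgQ2 {y 0, y 1} := by
    intro y
    unfold spanK
    congr 1
    ext w
    simp only [Set.mem_range, Fin.exists_fin_two, Set.mem_insert_iff, Set.mem_singleton_iff, eq_comm]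
  have htwo : ∀ y : Fin 2 → PadicAlgCl 2, HoldsIn L (spanK y) := by
    intro y M hM hc
    rw [hpair] at hM
    exact Pool.Agent.P8H10.SF.all_two (y 0) (y 1) hM hc.2
  have hb : ∀ b : Fin 2 → ℚ_[2], InQ2 (spanK fun i => (b i : PadicAlgCl 2)) := by
    intro b
    rw [hpair]
    exact Pool.Agent.P8H10.SF.pair_mem (b 0) (b 1)
  refine ⟨?_, ?_, htwo, ?_, ?_⟩
  · rintro ℓ _ h2 α hα hsq U ⟨τ, σ, hτ, hσ0, hσ1, hσ, hU⟩ hHU M hM hc
    exact hHU M (Pool.Agent.P8H33.QC.all_even hL' h2 α hα τ σ hτ hσ0 hσ1 hσ hsq U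
      (fun w hw => (hU w hw).1) (fun w hw => (hU w hw).2) M hM hc.2) hc
  · intro α hα U hE hsum hHU M hM hc
    exact hHU M (Pool.Agent.P8H10.SF.all_alt hL' α hα U hE hsum M hM hc.2) hc
  · intro ℓ _ h2
    obtain ⟨α, h1, h3, h4⟩ := Pool.Agent.P8H10.SF.all_cyc hL' ℓ h2
    have h5 : ∀ U : Submodule AlgQ2 (PadicAlgCl 2), InQ2 U → HoldsIn L U →
        HoldsIn L (U ⊔ spanK fun i => L (α i)) := fun U hU hHU M hM hc =>
      hHU M ((h4 U hU).2 M hM hc.2) hc
    exact ⟨α, h1, h3, fun U hU => ⟨(h4 U hU).1, h5 U hU⟩, fun b => h5 _ (hb b) (htwo _)⟩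
  · obtain ⟨α, h1, h2, h3, h4⟩ := Pool.Agent.P8H10.SF.all_quartic hL'
    have h5 : ∀ U : Submodule AlgQ2 (PadicAlgCl 2), InQ2 U → HoldsIn L U →
        HoldsIn L (U ⊔ spanK fun i => L (α i)) := fun U hU hHU M hM hc =>
      hHU M ((h4 U hU).2 M hM hc.2) hc
    exact ⟨α, h1, h2, h3, fun U hU => ⟨(h4 U hU).1, h5 U hU⟩, fun b => h5 _ (hb b) (htwo _)⟩

end Pool.Agent.Results.MP_dd0d16_nt.SignedCycleSpaces
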